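import Pool.Agent.MP_3fe7bf_gt.Mg.GB_Main

namespace Pool.Agent.Results.MP_3fe7bf_gt.Largest

open Pool.Agent.MP_3fe7bf_gt

/-- Every finite volume hyperbolic 6-manifold has Euler characteristic at most minus one, and the
value minus one is attained by one with infinite first integral homology. -/
theorem result :
    (∀ Γ : Subgroup Isom6, IsLat Γ → ∃ c : ℤ, c ≤ -1 ∧ HasChi (Orb Γ) c) ∧
    ∃ Γ : Subgroup Isom6, IsLat Γ ∧ Infinite (Hsing ℤ 1 (Orb Γ)) ∧ HasChi (Orb Γ) (-1) :=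
  ⟨fun _ h => GB.chi_le h, GB.witness⟩

end Pool.Agent.Results.MP_3fe7bf_gt.Largest
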